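import Pool.Agent.TH672.BP.Comm

/-!
# A generator with logarithmic seed for commutative branching programs

For every `c` there is an explicit generator with seed length `O(log n)` which fools with error
`1 / (log n) ^ c` all read-once branching programs of width about `(log n) ^ (1/16)` whose
transitions commute (so the order in which the bits are read does not matter), and, more generally,
programs which consist of `(log n) ^ c` arbitrary layers and `(log n) ^ c` intervals of layers in
each of which any two transitions commute.

The general result is about programs which descend in a preorder of the nodes; it contains both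
the commutative and the regular programs (for regular programs take the total preorder `R t u v`
for all `u`, `v`). These programs have rare nodes. A node whose equivalence class was left by
`12 (log n + 1)` layers is visited with probability `1 / n ^ 2` only; such nodes are cut off, and the
uniform distribution on the others is preserved by all but `polylog n` layers.
-/

set_option autoImplicit false

namespace Pool.Agent.Results.MP_10e1ea_lc.CommutativePrograms

open Finset Pool.Agent.W996.Reg Pool.Agent.TH672.BP

/-- For every `c` there are `C`, `E`, `n₀`, a register program `P` and maps
`G n : {0,1}^(C ⌊log₂ n⌋) → {0,1}^n` such that for `n ≥ n₀`: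

* started with `n`, (the number with the binary digits) `s`, and `i` in the registers `0`, `1`, `2`
  and `0` in all others, `P` stops with the `i`-th bit of `G n s` in register `3`, and all values
  written into registers are at most `n ^ E` (and so are the initial values, since `C < E`);
* `G n` fools with error `1 / L ^ c`, `L = ⌊log₂ n⌋`, all ordered read-once branching programs `A`
  of length `n` and width `w`, `(w + 1) ^ 16 ≤ L`, such that for some set `B` of at most `L ^ c`
  breakpoints
  (1) the transitions of any two layers `i ≤ j` with no breakpoint in `(i, j + 1]` commute, or
  (2) (more generally) `A` is descending for some preorders of the nodes of the layers: if `i + 1`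
      is not a breakpoint, then the preorders of the layers `i` and `i + 1` are the same, the
      transitions descend, a layer `i` which keeps `u` (both successors are equivalent to `u`)
      keeps all nodes below `u`, and exactly two edges lead from the class of `u` to `u`. -/
theorem result (c : ℕ) :
    ∃ (C E n₀ : ℕ) (P : Prg) (G : (n : ℕ) → (Fin (C * Nat.log 2 n) → Bool) → Fin n → Bool),
      C < E ∧
      (∀ n ≥ n₀, ∀ (s : Fin (C * Nat.log 2 n) → Bool) (i : Fin n),
        Run (n ^ E) P (inp n (num s) i)
          (Function.update (inp n (num s) i) 3 (if G n s i then 1 else 0))) ∧
      ∀ n ≥ n₀, ∀ w : ℕ, (w + 1) ^ 16 ≤ Nat.log 2 n → ∀ (A : Prog w n) (B : Finset ℕ),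
        B.card ≤ Nat.log 2 n ^ c →
        (Commutative A B ∨ ∃ R : ℕ → Fin w → Fin w → Prop, Descending A R B) →
          |av (fun x : Fin n → Bool => if A.out x then (1 : ℝ) else 0) -
            av (fun s : Fin (C * Nat.log 2 n) → Bool => if A.out (G n s) then (1 : ℝ) else 0)| ≤
              1 / (Nat.log 2 n : ℝ) ^ c := by
  obtain ⟨E, n₁, P, hP⟩ := explicit (3 * (c + 4) + 1)
  obtain ⟨n₂, h2⟩ := fools_desc c
  refine ⟨pC (3 * (c + 4) + 1), E + pC (3 * (c + 4) + 1) + 1, max (max n₁ n₂) 1, P,
    Pool.Agent.W996.Reg.G (3 * (c + 4) + 1), by omega, ?_, ?_⟩
  · intro n hn s i
    refine Run.mono ?_ (hP n (le_trans ((le_max_left _ _).trans (le_max_left _ _)) hn) s i)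
    exact Nat.pow_le_pow_right (le_trans (le_max_right _ _) hn) (by omega)
  · intro n hn w hw A B hB hA
    have hn2 : n ≥ n₂ := le_trans ((le_max_right _ _).trans (le_max_left _ _)) hn
    rcases hA with hA | ⟨R, hA⟩
    · exact h2 n hn2 w hw A _ B hB (comm_descending hA)
    · exact h2 n hn2 w hw A R B hB hA

end Pool.Agent.Results.MP_10e1ea_lc.CommutativePrograms
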