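import Pool.Agent.TH672.BP.Dfa

/-!
# A generator with logarithmic seed for finite automata on arbitrary subsequences

For every `c` there is an explicit generator with seed length `O(log n)` such that no deterministic
finite automaton with at most `c log log n` states, run on ANY subsequence of the output, can be
distinguished with advantage `1 / (log n) ^ c` from its run on a random string. More generally the
generator fools read-once branching programs of this width which consist of `(log n) ^ c` arbitrary
layers and of `(log n) ^ c` intervals in which all layers either ignore their bit or apply one and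
the same transition function to their bit or its negation.

The proof. In such an interval the transient states are visited with probability `n ^ (-3)` after
`polylog n` steps (Lyapunov function) and are cut off; the recurrent states have a stationary
measure which is at least `1 / (w ^ 2 * 2 ^ w)` everywhere, and a potential argument bounds the
total variation of the value function.
-/

set_option autoImplicit false

namespace Pool.Agent.Results.MP_10e1ea_lc.FiniteAutomata

open Finset Pool.Agent.W996.Reg Pool.Agent.TH672.BP

open Classical in
/-- For every `c` there are `C`, `E`, `n₀`, a register program `P` and maps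
`G n : {0,1}^(C ⌊log₂ n⌋) → {0,1}^n` such that for `n ≥ n₀`:

* started with `n`, (the number with the binary digits) `s`, and `i` in the registers `0`, `1`, `2`
  and `0` in all others, `P` stops with the `i`-th bit of `G n s` in register `3`, and all values
  written into registers are at most `n ^ E` (and so are the initial values, since `C < E`);
* for all `w` with `2 ^ w ≤ ⌊log₂ n⌋ ^ c`:
  (1) for every deterministic finite automaton `M` with `w` states and every set `S` of positions,
      the probabilities that `M` accepts the subsequence at the positions in `S` of a random string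
      and of `G n s` for a random seed `s` differ by at most `1 / ⌊log₂ n⌋ ^ c`;
  (2) for every set `B` of at most `⌊log₂ n⌋ ^ c` breakpoints, `G n` fools with error
      `1 / ⌊log₂ n⌋ ^ c` all ordered read-once branching programs of length `n` and width `w` such
      that for some transition functions `f`, which change at the breakpoints only, every layer `i`
      with `i + 1` not in `B` is the identity or is `f i` applied to the bit `i` or its negation. -/
theorem result (c : ℕ) :
    ∃ (C E n₀ : ℕ) (P : Prg) (G : (n : ℕ) → (Fin (C * Nat.log 2 n) → Bool) → Fin n → Bool),
      C < E ∧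
      (∀ n ≥ n₀, ∀ (s : Fin (C * Nat.log 2 n) → Bool) (i : Fin n),
        Run (n ^ E) P (inp n (num s) i)
          (Function.update (inp n (num s) i) 3 (if G n s i then 1 else 0))) ∧
      ∀ n ≥ n₀, ∀ w : ℕ, 2 ^ w ≤ Nat.log 2 n ^ c →
        (∀ (M : DFA Bool (Fin w)) (S : Finset (Fin n)),
          |av (fun x : Fin n → Bool => if subseq S x ∈ M.accepts then (1 : ℝ) else 0) -
            av (fun s : Fin (C * Nat.log 2 n) → Bool =>
              if subseq S (G n s) ∈ M.accepts then (1 : ℝ) else 0)| ≤
                1 / (Nat.log 2 n : ℝ) ^ c) ∧
        ∀ (A : Prog w n) (f : ℕ → Bool → Fin w → Fin w) (B : Finset ℕ),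
          B.card ≤ Nat.log 2 n ^ c → Automata A f B →
            |av (fun x : Fin n → Bool => if A.out x then (1 : ℝ) else 0) -
              av (fun s : Fin (C * Nat.log 2 n) → Bool => if A.out (G n s) then (1 : ℝ) else 0)| ≤
                1 / (Nat.log 2 n : ℝ) ^ c := by
  obtain ⟨E, n₁, P, hP⟩ := explicit (3 * (3 * c + 4) + 1)
  obtain ⟨n₂, h2⟩ := fools_auto c
  refine ⟨pC (3 * (3 * c + 4) + 1), E + pC (3 * (3 * c + 4) + 1) + 1, max (max n₁ n₂) 1, P,
    Pool.Agent.W996.Reg.G (3 * (3 * c + 4) + 1), by omega, ?_, ?_⟩
  · intro n hn s i
    refine Run.mono ?_ (hP n (le_trans ((le_max_left _ _).trans (le_max_left _ _)) hn) s i)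
    exact Nat.pow_le_pow_right (le_trans (le_max_right _ _) hn) (by omega)
  · intro n hn w hw
    have hn2 : n ≥ n₂ := le_trans ((le_max_right _ _).trans (le_max_left _ _)) hn
    refine ⟨?_, fun A f B hB hA => h2 n hn2 w hw A f B hB hA⟩
    intro M S
    have h3 := h2 n hn2 w hw (dfaProg M S) _ ∅ (by simp) (dfa_automata M S)
    unfold err at h3
    simpa only [dfa_out, decide_eq_true_eq] using h3

end Pool.Agent.Results.MP_10e1ea_lc.FiniteAutomata
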