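import Pool.Agent.TH672.BP.Main

/-!
# A generator with logarithmic seed for general branching programs without rare nodes

For every `c` there is an explicit generator with seed length `O(log n)` which fools ordered
read-once branching programs of width about `(log n) ^ (1/16)`, NOT necessarily regular, whose
nodes are visited with probability at least `1 / polylog n`; rare nodes are allowed if together
they are rarely visited. The second part contains this and the regular programs: the random walk
may be restarted in a random node of `polylog n` layers.

The key is a potential argument: if `m` is the distribution of the node in layer `t` and `f` is the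
value function, then the expected distance of the values of two independent nodes drops in every
step by at least `∑ u, m u ^ 2 * |f (u0) - f (u1)| / 2`.
-/

set_option autoImplicit false

namespace Pool.Agent.Results.MP_10e1ea_lc.NoRareNodes

open Finset Pool.Agent.W996.Reg Pool.Agent.TH672.BP

/-- For every `c` there are `C`, `E`, `n₀`, a register program `P` and maps
`G n : {0,1}^(C ⌊log₂ n⌋) → {0,1}^n` such that for `n ≥ n₀`:

* started with `n`, (the number with the binary digits) `s`, and `i` in the registers `0`, `1`, `2`
  and `0` in all others, `P` stops with the `i`-th bit of `G n s` in register `3`, and all values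
  written into registers are at most `n ^ E` (and so are the initial values, since `C < E`);
* for all ordered read-once branching programs of length `n` and width `w`,
  `(w + 1) ^ 16 ≤ ⌊log₂ n⌋ = L`:

  (1) If `ρ`, the probability that the path of a random input visits some node which is visited
  with probability less than `2 / L ^ c`, is at most `1 / L ^ c`, then `G n` fools the program with
  error `1 / L ^ c + 2 ρ`.

  (2) Let `X` be any set of nodes and `J` a set of at most `L ^ c` layers.  Suppose that for every
  layer `t < n` and the last layer `s ≤ t` in `J ∪ {0}`, every node `u` of layer `t` which is not in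
  `X` is reached with probability at least `1 / L ^ c`, without visiting `X`, by the path that
  starts in a uniformly random node of layer `s` and follows random bits.  Then `G n` fools the
  program with error `1 / L ^ c + 2 ρ`, where `ρ` is the probability that the path of a random
  input visits `X`. -/
theorem result (c : ℕ) :
    ∃ (C E n₀ : ℕ) (P : Prg) (G : (n : ℕ) → (Fin (C * Nat.log 2 n) → Bool) → Fin n → Bool),
      C < E ∧
      (∀ n ≥ n₀, ∀ (s : Fin (C * Nat.log 2 n) → Bool) (i : Fin n),
        Run (n ^ E) P (inp n (num s) i)
          (Function.update (inp n (num s) i) 3 (if G n s i then 1 else 0))) ∧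
      ∀ n ≥ n₀, ∀ w : ℕ, (w + 1) ^ 16 ≤ Nat.log 2 n → ∀ A : Prog w n,
        (∀ ρ : ℝ, ρ = pr (fun x : Fin n → Bool => ∃ t ≤ n,
            pr (fun y : Fin n → Bool => A.node y t = A.node x t) < 2 / (Nat.log 2 n : ℝ) ^ c) →
          ρ ≤ 1 / (Nat.log 2 n : ℝ) ^ c →
          |av (fun x : Fin n → Bool => if A.out x then (1 : ℝ) else 0) -
            av (fun s : Fin (C * Nat.log 2 n) → Bool => if A.out (G n s) then (1 : ℝ) else 0)| ≤
              1 / (Nat.log 2 n : ℝ) ^ c + 2 * ρ) ∧
        (∀ (X : ℕ → Fin w → Prop) (J : Finset ℕ), J.card ≤ Nat.log 2 n ^ c →
          (∀ s t, s ≤ t → t < n → (s = 0 ∨ s ∈ J) → (∀ r, s < r → r ≤ t → r ∉ J) →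
            ∀ u, ¬ X t u → 1 / (Nat.log 2 n : ℝ) ^ c ≤
              pr (fun p : Fin w × (Fin n → Bool) => walk A s p.1 p.2 (t - s) = u ∧
                ∀ j ≤ t - s, ¬ X (s + j) (walk A s p.1 p.2 j))) →
          |av (fun x : Fin n → Bool => if A.out x then (1 : ℝ) else 0) -
            av (fun s : Fin (C * Nat.log 2 n) → Bool => if A.out (G n s) then (1 : ℝ) else 0)| ≤
              1 / (Nat.log 2 n : ℝ) ^ c +
                2 * pr (fun x : Fin n → Bool => ∃ t ≤ n, X t (A.node x t))) := by
  obtain ⟨E, n₁, P, hP⟩ := explicit (3 * c + 1)
  obtain ⟨n₂, h2⟩ := fools_rare c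
  obtain ⟨n₃, h3⟩ := fools_walk c
  refine ⟨pC (3 * c + 1), E + pC (3 * c + 1) + 1, max (max n₁ n₂) (max n₃ 1), P,
    Pool.Agent.W996.Reg.G (3 * c + 1), by omega, ?_, ?_⟩
  · intro n hn s i
    refine Run.mono ?_ (hP n (le_trans ((le_max_left _ _).trans (le_max_left _ _)) hn) s i)
    exact Nat.pow_le_pow_right
      (le_trans ((le_max_right _ _).trans (le_max_right _ _)) hn) (by omega)
  · intro n hn w hw A
    constructor
    · intro ρ hρ hρ1
      rw [hρ] at hρ1 ⊢
      exact h2 n (le_trans ((le_max_right _ _).trans (le_max_left _ _)) hn) w hw A hρ1
    · intro X J hJ h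
      exact h3 n (le_trans ((le_max_left _ _).trans (le_max_right _ _)) hn) w hw A X J hJ h

end Pool.Agent.Results.MP_10e1ea_lc.NoRareNodes
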